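import Mathlib
import Pool.Agent.H493.LipInt

/-!
# Every `L^γ[0,1]` is a Lipschitz interpolation space between `L^β[0,1]` and `L^α[0,1]`

The proof: on a fixed segment one truncates the difference `x - y` at level `t`, extends the
Lipschitz bound in `L^α` from pairs in `L^α` to pairs in `L^β` whose difference lies in `L^α`
(density and Fatou), and integrates the resulting distributional inequality over `t`.
-/

set_option autoImplicit false
open MeasureTheory Set Filter Topology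
open scoped ENNReal NNReal

namespace Pool.Agent.Results.MP_6e3e44_an.LipschitzInterpolation

open Pool.Agent.H493.LI

/-- Lebesgue measure on `[0,1]`. -/
noncomputable abbrev lebesgue01 : Measure ℝ := volume.restrict (Icc 0 1)

/-- `L^γ[0,1]` is a Lipschitz interpolation space with constant `C` between `L^β[0,1]` and
`L^α[0,1]`: for every map `U` of `L^β` into itself that maps `L^α` into itself and is Lipschitz
with constant `M₀` in the norm of `L^β` and, on `L^α`, with constant `M₁` in the norm of `L^α`, the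
map `U` maps `L^γ` into itself and is Lipschitz there with constant `C * max M₀ M₁`. -/
def IsLipschitzInterpolation (β γ α C : ℝ) : Prop :=
  ∀ (U : Lp ℂ (ENNReal.ofReal β) lebesgue01 → Lp ℂ (ENNReal.ofReal β) lebesgue01) (M₀ M₁ : ℝ),
    0 ≤ M₀ → 0 ≤ M₁ →
    (∀ x y : Lp ℂ (ENNReal.ofReal β) lebesgue01,
      eLpNorm (fun s => U x s - U y s) (ENNReal.ofReal β) lebesgue01 ≤
      ENNReal.ofReal M₀ * eLpNorm (fun s => x s - y s) (ENNReal.ofReal β) lebesgue01) →
    (∀ x : Lp ℂ (ENNReal.ofReal β) lebesgue01,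
      MemLp x (ENNReal.ofReal α) lebesgue01 → MemLp (U x) (ENNReal.ofReal α) lebesgue01) →
    (∀ x y : Lp ℂ (ENNReal.ofReal β) lebesgue01,
      MemLp x (ENNReal.ofReal α) lebesgue01 → MemLp y (ENNReal.ofReal α) lebesgue01 →
      eLpNorm (fun s => U x s - U y s) (ENNReal.ofReal α) lebesgue01 ≤
        ENNReal.ofReal M₁ * eLpNorm (fun s => x s - y s) (ENNReal.ofReal α) lebesgue01) →
    (∀ x : Lp ℂ (ENNReal.ofReal β) lebesgue01,
      MemLp x (ENNReal.ofReal γ) lebesgue01 → MemLp (U x) (ENNReal.ofReal γ) lebesgue01) ∧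
    (∀ x y : Lp ℂ (ENNReal.ofReal β) lebesgue01, MemLp x (ENNReal.ofReal γ) lebesgue01 → MemLp y (ENNReal.ofReal γ) lebesgue01 →
      eLpNorm (fun s => U x s - U y s) (ENNReal.ofReal γ) lebesgue01 ≤
        ENNReal.ofReal (C * max M₀ M₁) *
          eLpNorm (fun s => x s - y s) (ENNReal.ofReal γ) lebesgue01)

section
variable {Ω : Type*} [MeasurableSpace Ω] {μ : Measure Ω} [IsFiniteMeasure μ]

omit [IsFiniteMeasure μ] in
lemma norm_of_eL {β : ℝ} (x y : Lp ℂ (ENNReal.ofReal β) μ) :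
    ENNReal.ofReal ‖x - y‖ = eLpNorm (fun s => x s - y s) (ENNReal.ofReal β) μ := by
  rw [Lp.norm_def, ENNReal.ofReal_toReal (Lp.eLpNorm_ne_top _)]
  exact eLpNorm_congr_ae (Lp.coeFn_sub x y)

omit [IsFiniteMeasure μ] in
lemma lip_cont {β : ℝ} (U : Lp ℂ (ENNReal.ofReal β) μ → Lp ℂ (ENNReal.ofReal β) μ)
    (M₀ : ℝ) (hM₀ : 0 ≤ M₀)
    (hU : ∀ x y : Lp ℂ (ENNReal.ofReal β) μ, eLpNorm (fun s => U x s - U y s) (ENNReal.ofReal β) μ ≤
      ENNReal.ofReal M₀ * eLpNorm (fun s => x s - y s) (ENNReal.ofReal β) μ)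
    (x y : Lp ℂ (ENNReal.ofReal β) μ) : ‖U x - U y‖ ≤ M₀ * ‖x - y‖ := by
  have h := hU x y
  rw [← norm_of_eL, ← norm_of_eL, ← ENNReal.ofReal_mul hM₀] at h
  exact (ENNReal.ofReal_le_ofReal_iff (mul_nonneg hM₀ (by
    rw [Lp.norm_def]; exact ENNReal.toReal_nonneg))).1 h

/-- The Lipschitz bound in `L^α` extends to all pairs of elements of `L^β` whose difference lies
in `L^α`. -/
lemma extend {β α : ℝ} (hβ : 1 ≤ β)
    (U : Lp ℂ (ENNReal.ofReal β) μ → Lp ℂ (ENNReal.ofReal β) μ)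
    (M₀ M₁ : ℝ) (hM₀ : 0 ≤ M₀)
    (hU0 : ∀ x y : Lp ℂ (ENNReal.ofReal β) μ, eLpNorm (fun s => U x s - U y s) (ENNReal.ofReal β) μ ≤
      ENNReal.ofReal M₀ * eLpNorm (fun s => x s - y s) (ENNReal.ofReal β) μ)
    (hU1 : ∀ x y : Lp ℂ (ENNReal.ofReal β) μ, MemLp x (ENNReal.ofReal α) μ → MemLp y (ENNReal.ofReal α) μ →
      eLpNorm (fun s => U x s - U y s) (ENNReal.ofReal α) μ ≤
        ENNReal.ofReal M₁ * eLpNorm (fun s => x s - y s) (ENNReal.ofReal α) μ)
    (y H : Lp ℂ (ENNReal.ofReal β) μ) (hH : MemLp H (ENNReal.ofReal α) μ) :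
    eLpNorm (fun s => U (y + H) s - U y s) (ENNReal.ofReal α) μ ≤
      ENNReal.ofReal M₁ * eLpNorm H (ENNReal.ofReal α) μ := by
  have : Fact (1 ≤ ENNReal.ofReal β) := ⟨by rw [← ENNReal.ofReal_one]; exact ENNReal.ofReal_le_ofReal hβ⟩
  have hlip := lip_cont U M₀ hM₀ hU0
  have hcont : Continuous U := by
    have : LipschitzWith ⟨M₀, hM₀⟩ U := LipschitzWith.of_dist_le_mul fun a b => by
      rw [dist_eq_norm, dist_eq_norm]; exact hlip a b
    exact this.continuous
  have hyex : ∀ n : ℕ, ∃ g : SimpleFunc Ω ℂ, eLpNorm ((y : Ω → ℂ) - (g : Ω → ℂ)) (ENNReal.ofReal β) μ <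
      ENNReal.ofReal (1/((n:ℝ)+1)) ∧ MemLp g (ENNReal.ofReal β) μ := fun n =>
    (Lp.memLp y).exists_simpleFunc_eLpNorm_sub_lt ENNReal.ofReal_ne_top (by
      rw [ne_eq, ENNReal.ofReal_eq_zero, not_le]; positivity)
  choose g hg hgm using hyex
  let yn : ℕ → Lp ℂ (ENNReal.ofReal β) μ := fun n => (hgm n).toLp (g n)
  have hyn : Tendsto yn atTop (𝓝 y) := by
    rw [tendsto_iff_norm_sub_tendsto_zero]
    refine squeeze_zero (fun n => norm_nonneg _) (fun n => ?_) tendsto_one_div_add_atTop_nhds_zero_nat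
    rw [norm_sub_rev]
    have h1 : ENNReal.ofReal ‖y - yn n‖ ≤ ENNReal.ofReal (1/((n:ℝ)+1)) := by
      rw [norm_of_eL]
      refine le_trans (le_of_eq ?_) (hg n).le
      apply eLpNorm_congr_ae
      filter_upwards [(hgm n).coeFn_toLp] with s hs
      show y s - (yn n) s = ((y : Ω → ℂ) - (g n : Ω → ℂ)) s
      rw [Pi.sub_apply, ← hs]
    exact (ENNReal.ofReal_le_ofReal_iff (by positivity)).1 h1
  have hmem : ∀ n, MemLp (yn n) (ENNReal.ofReal α) μ := fun n =>
    ((g n).memLp_of_isFiniteMeasure (ENNReal.ofReal α) μ).ae_eq ((hgm n).coeFn_toLp).symm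
  have ht : Tendsto (fun n => U (yn n + H) - U (yn n)) atTop (𝓝 (U (y + H) - U y)) :=
    ((hcont.tendsto _).comp (hyn.add_const H)).sub ((hcont.tendsto _).comp hyn)
  have hin := tendstoInMeasure_of_tendsto_Lp ht
  have hbound : ∀ n, eLpNorm (U (yn n + H) - U (yn n) : Lp ℂ (ENNReal.ofReal β) μ) (ENNReal.ofReal α) μ ≤
      ENNReal.ofReal M₁ * eLpNorm H (ENNReal.ofReal α) μ := by
    intro n
    have h1 : MemLp (yn n + H : Lp ℂ (ENNReal.ofReal β) μ) (ENNReal.ofReal α) μ :=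
      ((hmem n).add hH).ae_eq (Lp.coeFn_add (yn n) H).symm
    have h2 := hU1 (yn n + H) (yn n) h1 (hmem n)
    refine le_trans (le_of_eq (eLpNorm_congr_ae (Lp.coeFn_sub _ _))) (h2.trans (le_of_eq ?_))
    congr 1
    apply eLpNorm_congr_ae
    filter_upwards [Lp.coeFn_add (yn n) H] with s hs
    rw [hs]
    simp
  have hfin := eLpNorm_le_of_tendstoInMeasure (Eventually.of_forall hbound) hin
    (fun n => Lp.aestronglyMeasurable _)
  refine le_trans (le_of_eq (eLpNorm_congr_ae ?_)) hfin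
  exact (Lp.coeFn_sub _ _).symm

theorem main_fin {β γ α : ℝ} (hβ : 1 ≤ β) (h1 : β < γ) (h2 : γ < α)
    (U : Lp ℂ (ENNReal.ofReal β) μ → Lp ℂ (ENNReal.ofReal β) μ)
    (M₀ M₁ : ℝ) (hM₀ : 0 ≤ M₀)
    (hU0 : ∀ x y : Lp ℂ (ENNReal.ofReal β) μ, eLpNorm (fun s => U x s - U y s) (ENNReal.ofReal β) μ ≤
      ENNReal.ofReal M₀ * eLpNorm (fun s => x s - y s) (ENNReal.ofReal β) μ)
    (hU1 : ∀ x y : Lp ℂ (ENNReal.ofReal β) μ, MemLp x (ENNReal.ofReal α) μ → MemLp y (ENNReal.ofReal α) μ →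
      eLpNorm (fun s => U x s - U y s) (ENNReal.ofReal α) μ ≤
        ENNReal.ofReal M₁ * eLpNorm (fun s => x s - y s) (ENNReal.ofReal α) μ)
    (x y : Lp ℂ (ENNReal.ofReal β) μ) :
    eLpNorm (fun s => U x s - U y s) (ENNReal.ofReal γ) μ ≤
      ENNReal.ofReal (2 * (CC β γ α) ^ (1/γ) * max M₀ M₁) *
        eLpNorm (fun s => x s - y s) (ENNReal.ofReal γ) μ := by
  have : Fact (1 ≤ ENNReal.ofReal β) := ⟨by rw [← ENNReal.ofReal_one]; exact ENNReal.ofReal_le_ofReal hβ⟩
  have hβ0 : 0 < β := by linarith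
  have hγ : 0 < γ := by linarith
  have hα : 0 < α := by linarith
  have hCC : 0 < CC β γ α := by
    unfold CC
    have p1 : 0 < γ - β := by linarith
    have p2 : 0 < α - γ := by linarith
    positivity
  set M := max M₀ M₁ with hM
  have hM0 : 0 ≤ M := hM₀.trans (le_max_left _ _)
  rcases hM0.eq_or_lt with hMz | hMpos
  · -- `M = 0`: the map is constant
    have h0 : M₀ = 0 := le_antisymm (by rw [hMz]; exact le_max_left _ _) hM₀
    have h3 := hU0 x y
    have hm3 : AEStronglyMeasurable (fun s => U x s - U y s) μ :=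
      (Lp.aestronglyMeasurable _).sub (Lp.aestronglyMeasurable _)
    rw [h0, ENNReal.ofReal_zero, zero_mul, nonpos_iff_eq_zero,
      eLpNorm_eq_zero_iff hm3 (by
        rw [ne_eq, ENNReal.ofReal_eq_zero, not_le]; exact hβ0)] at h3
    rw [eLpNorm_congr_ae h3, eLpNorm_zero]
    exact zero_le
  · set h : Ω → ℂ := fun s => x s - y s with hh
    set k : Ω → ℂ := fun s => U x s - U y s with hk
    have hhm : Measurable h := (Lp.stronglyMeasurable x).measurable.sub (Lp.stronglyMeasurable y).measurable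
    have hkm : AEStronglyMeasurable k μ := (Lp.aestronglyMeasurable _).sub (Lp.aestronglyMeasurable _)
    have hyp : ∀ t : ℝ, 0 < t → ∃ k0 k1 : Ω → ℂ, k =ᵐ[μ] k0 + k1 ∧ AEStronglyMeasurable k0 μ ∧
        AEStronglyMeasurable k1 μ ∧
        eLpNorm k0 (ENNReal.ofReal β) μ ≤
          ENNReal.ofReal M * eLpNorm (fun ω => h ω - tr t (h ω)) (ENNReal.ofReal β) μ ∧
        eLpNorm k1 (ENNReal.ofReal α) μ ≤
          ENNReal.ofReal M * eLpNorm (fun ω => tr t (h ω)) (ENNReal.ofReal α) μ := by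
      intro t ht
      have htm : AEStronglyMeasurable (fun ω => tr t (h ω)) μ :=
        ((measurable_tr t).comp hhm).aestronglyMeasurable
      have htb : ∀ p, MemLp (fun ω => tr t (h ω)) p μ := fun p =>
        MemLp.of_bound htm t (ae_of_all _ fun ω => by
          rw [norm_tr ht.le]; exact min_le_right _ _)
      let H : Lp ℂ (ENNReal.ofReal β) μ := (htb _).toLp _
      have hHc : H =ᵐ[μ] fun ω => tr t (h ω) := (htb _).coeFn_toLp
      have hHm : MemLp H (ENNReal.ofReal α) μ := (htb _).ae_eq hHc.symm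
      refine ⟨fun s => U x s - U (y + H) s, fun s => U (y + H) s - U y s, ?_,
        (Lp.aestronglyMeasurable _).sub (Lp.aestronglyMeasurable _),
        (Lp.aestronglyMeasurable _).sub (Lp.aestronglyMeasurable _), ?_, ?_⟩
      · refine ae_of_all _ fun s => ?_
        show U x s - U y s = (U x s - U (y + H) s) + (U (y + H) s - U y s)
        ring
      · refine (hU0 x (y + H)).trans ?_
        refine mul_le_mul' (ENNReal.ofReal_le_ofReal (le_max_left _ _)) (le_of_eq ?_)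
        apply eLpNorm_congr_ae
        filter_upwards [Lp.coeFn_add y H, hHc] with s hs hs2
        rw [hs, Pi.add_apply, hs2]
        show x s - (y s + tr t (h s)) = (x s - y s) - tr t (h s)
        ring
      · refine (extend hβ U M₀ M₁ hM₀ hU0 hU1 y H hHm).trans ?_
        exact mul_le_mul' (ENNReal.ofReal_le_ofReal (le_max_right _ _))
          (le_of_eq (eLpNorm_congr_ae hHc))
    have hcore := core hβ0 h1 h2 h k hhm hkm M hMpos hyp
    have e1 : eLpNorm k (ENNReal.ofReal γ) μ ^ γ ≤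
        ENNReal.ofReal ((2 * (CC β γ α) ^ (1/γ) * M) ^ γ) * eLpNorm h (ENNReal.ofReal γ) μ ^ γ := by
      rw [eL k γ hγ, eL h γ hγ]
      have e2 : ∀ ω, ENNReal.ofReal (‖k ω‖ ^ γ) =
          ENNReal.ofReal ((2*M)^γ) * ENNReal.ofReal ((‖k ω‖ / (2*M)) ^ γ) := by
        intro ω
        rw [← ENNReal.ofReal_mul (by positivity), ← Real.mul_rpow (by positivity) (by positivity)]
        congr 2
        field_simp
      simp only [e2]
      rw [lintegral_const_mul' _ _ ENNReal.ofReal_ne_top]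
      refine (mul_le_mul_right hcore _).trans (le_of_eq ?_)
      rw [← mul_assoc, ← ENNReal.ofReal_mul (by positivity)]
      congr 2
      have e3 : 2 * (CC β γ α) ^ (1/γ) * M = (2 * M) * (CC β γ α) ^ (1/γ) := by ring
      have e5 : ((CC β γ α) ^ (1/γ)) ^ γ = CC β γ α := by
        rw [← Real.rpow_mul hCC.le, one_div, inv_mul_cancel₀ hγ.ne', Real.rpow_one]
      rw [e3, Real.mul_rpow (x := 2*M) (by positivity) (by positivity), e5]
    have e4 := ENNReal.rpow_le_rpow e1 (by positivity : 0 ≤ 1/γ)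
    rw [← ENNReal.rpow_mul, mul_one_div_cancel hγ.ne', ENNReal.rpow_one,
      ENNReal.mul_rpow_of_nonneg _ _ (by positivity), ← ENNReal.rpow_mul, mul_one_div_cancel hγ.ne',
      ENNReal.rpow_one, ENNReal.ofReal_rpow_of_nonneg (by positivity) (by positivity),
      ← Real.rpow_mul (by positivity), mul_one_div_cancel hγ.ne', Real.rpow_one] at e4
    exact e4

end

/-- **Lipschitz interpolation of Lebesgue spaces.** For all `1 ≤ β < γ < α < ∞` the space
`L^γ[0,1]` is a Lipschitz interpolation space between `L^β[0,1]` and `L^α[0,1]`, with the explicit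
constant `2 (γ (1/(γ-β) + 1/γ + 1/(α-γ)))^(1/γ)`. -/
theorem result (β γ α : ℝ) (hβ : 1 ≤ β) (h1 : β < γ) (h2 : γ < α) :
    ∃ C : ℝ, 0 < C ∧ C = 2 * (γ * (1/(γ-β) + (1/γ + 1/(α-γ)))) ^ (1/γ) ∧
      IsLipschitzInterpolation β γ α C := by
  have hγ : 0 < γ := by linarith
  have p1 : 0 < γ - β := by linarith
  have p2 : 0 < α - γ := by linarith
  refine ⟨2 * (γ * (1/(γ-β) + (1/γ + 1/(α-γ)))) ^ (1/γ), by positivity, rfl, ?_⟩
  intro U M₀ M₁ hM₀ hM₁ hU0 hUα hU1
  have hlip := main_fin hβ h1 h2 U M₀ M₁ hM₀ hU0 hU1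
  refine ⟨fun x hx => ?_, fun x y _ _ => hlip x y⟩
  have h0 : MemLp (0 : Lp ℂ (ENNReal.ofReal β) lebesgue01) (ENNReal.ofReal α) lebesgue01 :=
    (MemLp.zero (ε := ℂ)).ae_eq (Lp.coeFn_zero _ _ _).symm
  have hU0m : MemLp (U 0) (ENNReal.ofReal γ) lebesgue01 :=
    (hUα 0 h0).mono_exponent (ENNReal.ofReal_le_ofReal h2.le)
  have hd := hlip x 0
  have hdm : MemLp (fun s => U x s - U 0 s) (ENNReal.ofReal γ) lebesgue01 := by
    refine ⟨(Lp.aestronglyMeasurable _).sub (Lp.aestronglyMeasurable _), lt_of_le_of_lt hd ?_⟩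
    apply ENNReal.mul_lt_top ENNReal.ofReal_lt_top
    have : eLpNorm (fun s => x s - (0 : Lp ℂ (ENNReal.ofReal β) lebesgue01) s) (ENNReal.ofReal γ) lebesgue01 =
        eLpNorm x (ENNReal.ofReal γ) lebesgue01 := by
      apply eLpNorm_congr_ae
      filter_upwards [Lp.coeFn_zero ℂ (ENNReal.ofReal β) lebesgue01] with s hs
      rw [hs]; simp
    rw [this]
    exact hx.2
  have := hdm.add hU0m
  refine this.ae_eq (ae_of_all _ fun s => ?_)
  show (U x s - U 0 s) + U 0 s = U x s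
  ring

end Pool.Agent.Results.MP_6e3e44_an.LipschitzInterpolation
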